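import Pool.Agent.Lib.LU1_h15.Mk

/-! # LU2 base: the weak context `Ctx2` (residues algebraic over `k`) and basic facts -/

set_option autoImplicit false

namespace Pool.Agent.LU1

open Pool.Agent.H15JM (RVal)
open Polynomial

universe u

variable {k Ω : Type u} [Field k] [Field Ω] [Algebra k Ω] {v : RVal Ω} {r : ℕ}

/-- The standing assumptions on the real valuation `v` of the big field `Ω`: it is trivial on `k`,
the residues are algebraic over `k`, the rational rank is `r`, and `Ω` has transcendence degree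
`r + 1` over `k`. -/
structure Ctx2 (k : Type u) {Ω : Type u} [Field k] [Field Ω] [Algebra k Ω] (v : RVal Ω)
    (r : ℕ) : Prop where
  triv : ∀ c : k, c ≠ 0 → v (algebraMap k Ω c) = 0
  res : ∀ g : Ω, g ≠ 0 → v g = 0 → ∃ P : k[X], P.Monic ∧ VPos v (aeval g P)
  rpos : 0 < r
  trdeg : Algebra.trdeg k Ω = r + 1
  rank : ∃ X : Fin r → Ω, (∀ i, X i ≠ 0) ∧ LinearIndependent ℚ (fun i => v (X i)) ∧
    ∀ g : Ω, g ≠ 0 → v g ∈ Submodule.span ℚ (Set.range fun i => v (X i))

theorem Ctx.ctx2 (h : Ctx k v r) : Ctx2 k v r where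
  triv := h.triv
  res := fun g h0 h1 => by
    obtain ⟨c, -, hc⟩ := h.res g h0 h1
    exact ⟨X - C c, monic_X_sub_C c, by rw [map_sub, aeval_X, aeval_C]; exact hc⟩
  rpos := h.rpos
  trdeg := h.trdeg
  rank := h.rank

theorem Ctx2.ge (h : Ctx2 k v r) (c : k) : v.Ge 0 (algebraMap k Ω c) := by
  intro h0
  have : c ≠ 0 := by rintro rfl; simp at h0
  rw [h.triv c this]

theorem Ctx2.const_eq_zero (h : Ctx2 k v r) {c : k} (hc : VPos v (algebraMap k Ω c)) : c = 0 := by
  by_contra h0
  have := hc (by simpa using h0)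
  rw [h.triv c h0] at this
  exact lt_irrefl _ this

/-- Residues are algebraic over `k`. -/
theorem Ctx2.res' (h : Ctx2 k v r) {g : Ω} (hg : v.Ge 0 g) :
    ∃ P : k[X], P.Monic ∧ VPos v (aeval g P) := by
  by_cases h0 : g = 0
  · exact ⟨X, monic_X, by rw [aeval_X, h0]; exact VPos.zero⟩
  rcases (hg h0).lt_or_eq with h1 | h1
  · exact ⟨X, monic_X, by rw [aeval_X]; exact fun _ => h1⟩
  · exact h.res g h0 h1.symm

theorem adjoin_nonneg2 (h : Ctx2 k v r) {S : Set Ω} (hS : ∀ f ∈ S, v.Ge 0 f) :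
    ∀ f ∈ Algebra.adjoin k S, v.Ge 0 f := by
  intro f hf
  induction hf using Algebra.adjoin_induction with
  | mem x hx => exact hS x hx
  | algebraMap c => exact h.ge c
  | add x y _ _ hx hy => exact hx.add hy
  | mul x y _ _ hx hy => simpa using hx.mul hy

theorem BF.Un.const2 {B : BF k v} (h : Ctx2 k v r) {c : k} (hc : c ≠ 0) :
    B.Un (algebraMap k Ω c) :=
  ⟨B.R.algebraMap_mem c, by simpa using hc, h.triv c hc⟩

/-- The residue field of the frame is the base field. -/
def BF.Res (B : BF k v) : Prop := ∀ f ∈ B.R, ∃ c : k, VPos v (f - algebraMap k Ω c)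

/-- The residue field of the frame is the base field. -/
def NF.Res (N : NF k v r) : Prop := ∀ f ∈ N.R, ∃ c : k, VPos v (f - algebraMap k Ω c)

theorem BF.Res.exists_const {B : BF k v} (hB : B.Res) {f : Ω} (hf : f ∈ B.R) :
    ∃ c : k, VPos v (f - algebraMap k Ω c) ∧ f - algebraMap k Ω c ∈ B.R := by
  obtain ⟨c, hc⟩ := hB f hf
  exact ⟨c, hc, B.R.sub_mem hf (B.R.algebraMap_mem c)⟩


end Pool.Agent.LU1
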