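import Pool.Agent.Lib.LU2_base.GStep

/-! # LU2 base: change of the base field of a frame -/

set_option autoImplicit false

namespace Pool.Agent.LU1

open Pool.Agent.H15JM (RVal)
open Polynomial

universe u

variable {k Ω : Type u} [Field k] [Field Ω] [Algebra k Ω] {v : RVal Ω} {r : ℕ}

/-- Algebraic over a subring: only the underlying set matters. -/
theorem isAlgebraic_of_set_eq {k k' Ω : Type u} [Field k] [Field k'] [Field Ω] [Algebra k Ω]
    [Algebra k' Ω] (R : Subalgebra k Ω) (R' : Subalgebra k' Ω) (h : ∀ f, f ∈ R → f ∈ R') {g : Ω}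
    (hg : IsAlgebraic R g) : IsAlgebraic R' g := by
  let f : R →+* R' :=
    { toFun := fun x => ⟨x.1, h x.1 x.2⟩
      map_one' := rfl
      map_mul' := fun _ _ => rfl
      map_zero' := rfl
      map_add' := fun _ _ => rfl }
  have hf : Function.Injective f := fun x y hxy => Subtype.ext (congrArg (fun z => z.1) hxy)
  exact hg.ringHom_of_comp_eq f (RingHom.id Ω) hf rfl

/-- Same data, larger base field `C ⊆ R`. -/
theorem BF.exists_over (B : BF k v) (C : IntermediateField k Ω) (hC : ∀ c ∈ C, c ∈ B.R) :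
    ∃ B' : BF C v, B'.Γ = B.Γ ∧ B'.χ = B.χ ∧ B'.y = B.y ∧ ∀ f, f ∈ B'.R ↔ f ∈ B.R := by
  let R' : Subalgebra C Ω :=
    { carrier := {f | f ∈ B.R}
      mul_mem' := fun ha hb => B.R.mul_mem ha hb
      add_mem' := fun ha hb => B.R.add_mem ha hb
      algebraMap_mem' := fun c => hC c.1 c.2 }
  have hR' : ∀ f, f ∈ R' ↔ f ∈ B.R := fun f => Iff.rfl
  refine ⟨{ Γ := B.Γ, fg := B.fg, full := B.full, χ := B.χ, χ_ne := B.χ_ne, χ_add := B.χ_add,
            χ_val := B.χ_val, y := B.y, y_ne := B.y_ne, y_pos := B.y_pos, R := R',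
            nonneg := B.nonneg, loc := B.loc, χ_mem := B.χ_mem, y_mem := B.y_mem,
            fgen := ?_, gen := B.gen, alg := ?_ }, rfl, rfl, rfl, fun f => Iff.rfl⟩
  · obtain ⟨F, hF⟩ := B.fgen
    refine ⟨F, le_antisymm ?_ ?_⟩
    · intro f hf
      have hf' : f ∈ locv v (Algebra.adjoin k ((F : Set Ω) ∪ B.χ '' {γ | γ ∈ B.Γ ∧ 0 ≤ γ})) := by
        rw [← hF]; exact hf
      have hle : ∀ a ∈ Algebra.adjoin k ((F : Set Ω) ∪ B.χ '' {γ | γ ∈ B.Γ ∧ 0 ≤ γ}),
          a ∈ Algebra.adjoin C ((F : Set Ω) ∪ B.χ '' {γ | γ ∈ B.Γ ∧ 0 ≤ γ}) := by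
        intro a ha
        induction ha using Algebra.adjoin_induction with
        | mem x hx => exact Algebra.subset_adjoin hx
        | algebraMap c => exact Subalgebra.algebraMap_mem _ (algebraMap k C c)
        | add x y _ _ hx hy => exact add_mem hx hy
        | mul x y _ _ hx hy => exact mul_mem hx hy
      obtain ⟨a, ha, b, hb, h0, h1, rfl⟩ := hf'
      exact ⟨a, hle a ha, b, hle b hb, h0, h1, rfl⟩
    · refine locv_le (Algebra.adjoin_le ?_) B.loc
      intro x hx
      have : x ∈ locv v (Algebra.adjoin k ((F : Set Ω) ∪ B.χ '' {γ | γ ∈ B.Γ ∧ 0 ≤ γ})) :=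
        le_locv _ (Algebra.subset_adjoin hx)
      rw [← hF] at this
      exact this
  · intro g
    exact isAlgebraic_of_set_eq B.R R' (fun f hf => hf) (B.alg g)

/-- Same data, smaller base field: `C` finitely generated over `k` with trivial valuation. -/
theorem BF.exists_down (C : IntermediateField k Ω) (hfg : C.FG)
    (htriv : ∀ c ∈ C, c ≠ 0 → v c = 0) (B : BF C v) :
    ∃ B' : BF k v, B'.Γ = B.Γ ∧ B'.χ = B.χ ∧ B'.y = B.y ∧ ∀ f, f ∈ B'.R ↔ f ∈ B.R := by
  classical
  let R' : Subalgebra k Ω :=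
    { carrier := {f | f ∈ B.R}
      mul_mem' := fun ha hb => B.R.mul_mem ha hb
      add_mem' := fun ha hb => B.R.add_mem ha hb
      algebraMap_mem' := fun c => B.R.algebraMap_mem (algebraMap k C c) }
  refine ⟨{ Γ := B.Γ, fg := B.fg, full := B.full, χ := B.χ, χ_ne := B.χ_ne, χ_add := B.χ_add,
            χ_val := B.χ_val, y := B.y, y_ne := B.y_ne, y_pos := B.y_pos, R := R',
            nonneg := B.nonneg, loc := B.loc, χ_mem := B.χ_mem, y_mem := B.y_mem,
            fgen := ?_, gen := B.gen, alg := ?_ }, rfl, rfl, rfl, fun f => Iff.rfl⟩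
  · obtain ⟨F, hF⟩ := B.fgen
    obtain ⟨S, hS⟩ := hfg
    have hloc : ∀ f ∈ locv v (Algebra.adjoin k (((F ∪ S : Finset Ω) : Set Ω) ∪
        B.χ '' {γ | γ ∈ B.Γ ∧ 0 ≤ γ})), f ≠ 0 → v f = 0 →
        f⁻¹ ∈ locv v (Algebra.adjoin k (((F ∪ S : Finset Ω) : Set Ω) ∪
        B.χ '' {γ | γ ∈ B.Γ ∧ 0 ≤ γ})) := fun f hf => locv_inv hf
    have hC : ∀ c ∈ C, c ∈ locv v (Algebra.adjoin k (((F ∪ S : Finset Ω) : Set Ω) ∪
        B.χ '' {γ | γ ∈ B.Γ ∧ 0 ≤ γ})) := by
      intro c hc
      rw [← hS] at hc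
      obtain ⟨a, ha, b, hb, rfl⟩ := IntermediateField.mem_adjoin_iff_div.1 hc
      have hsub : Algebra.adjoin k (S : Set Ω) ≤ Algebra.adjoin k (((F ∪ S : Finset Ω) : Set Ω) ∪
          B.χ '' {γ | γ ∈ B.Γ ∧ 0 ≤ γ}) := by
        apply Algebra.adjoin_mono
        intro x hx
        left
        rw [Finset.coe_union]
        exact Or.inr hx
      by_cases hb0 : b = 0
      · rw [hb0, div_zero]; exact Subalgebra.zero_mem _
      · refine ⟨a, hsub ha, b, hsub hb, hb0, htriv b ?_ hb0, rfl⟩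
        rw [← hS]
        exact IntermediateField.algebra_adjoin_le_adjoin k _ hb
    refine ⟨F ∪ S, le_antisymm ?_ ?_⟩
    · intro f hf
      have hf' : f ∈ locv v (Algebra.adjoin C ((F : Set Ω) ∪ B.χ '' {γ | γ ∈ B.Γ ∧ 0 ≤ γ})) := by
        rw [← hF]; exact hf
      have hle : ∀ a ∈ Algebra.adjoin C ((F : Set Ω) ∪ B.χ '' {γ | γ ∈ B.Γ ∧ 0 ≤ γ}),
          a ∈ locv v (Algebra.adjoin k (((F ∪ S : Finset Ω) : Set Ω) ∪
          B.χ '' {γ | γ ∈ B.Γ ∧ 0 ≤ γ})) := by
        intro a ha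
        induction ha using Algebra.adjoin_induction with
        | mem x hx =>
          apply le_locv
          apply Algebra.subset_adjoin
          rcases hx with hx | hx
          · left; rw [Finset.coe_union]; exact Or.inl hx
          · right; exact hx
        | algebraMap c => exact hC c.1 c.2
        | add x y _ _ hx hy => exact add_mem hx hy
        | mul x y _ _ hx hy => exact mul_mem hx hy
      obtain ⟨a, ha, b, hb, h0, h1, rfl⟩ := hf'
      rw [div_eq_mul_inv]
      exact mul_mem (hle a ha) (hloc b (hle b hb) h0 h1)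
    · refine locv_le (Algebra.adjoin_le ?_) B.loc
      intro x hx
      change x ∈ B.R
      rcases hx with hx | hx
      · rw [Finset.coe_union] at hx
        rcases hx with hx | hx
        · rw [hF]
          exact le_locv _ (Algebra.subset_adjoin (Or.inl hx))
        · have hxC : x ∈ C := by
            rw [← hS]; exact IntermediateField.subset_adjoin k _ hx
          exact B.R.algebraMap_mem (⟨x, hxC⟩ : C)
      · obtain ⟨γ, ⟨h1, h2⟩, rfl⟩ := hx
        exact B.χ_mem γ h1 h2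
  · intro g
    exact isAlgebraic_of_set_eq B.R R' (fun f hf => hf) (B.alg g)

end Pool.Agent.LU1
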