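import Pool.Agent.Lib.LU2_base.Mk
import Pool.Agent.Lib.LU1_h15.TStepEx

/-! # LU2 base: G-steps (T-steps with growth of the residue field) -/

set_option autoImplicit false

namespace Pool.Agent.LU1

open Pool.Agent.H15JM (RVal)
open Polynomial

universe u

variable {k Ω : Type u} [Field k] [Field Ω] [Algebra k Ω] {v : RVal Ω} {r : ℕ}

/-- `M` is a monic lift of the minimal polynomial of the residue of `w`. -/
structure BF.IsMin (B : BF k v) (w : Ω) (M : B.R[X]) : Prop where
  monic : M.Monic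
  vpos : VPos v (aeval w M)
  min : ∀ P : B.R[X], P.natDegree < M.natDegree → VPos v (aeval w P) →
    ∀ i, VPos v (P.coeff i : Ω)

/-- `B → B'` is a G-step with data `q, M, s`. -/
structure IsGStep (B B' : BF k v) (q : ℕ) (M : B.R[X]) (s : ℝ → ℤ → ℤ) : Prop where
  q_pos : 0 < q
  q_mem : (q : ℝ) * v B.y ∈ B.Γ
  q_min : ∀ m : ℕ, 0 < m → (m : ℝ) * v B.y ∈ B.Γ → q ≤ m
  Γ_eq : B'.Γ = B.Γ ⊔ AddSubgroup.zmultiples (v B.y)
  s_add : ∀ γ ∈ B.Γ, ∀ δ ∈ B.Γ, ∀ l m : ℤ, s (γ + δ) (l + m) = s γ l + s δ m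
  s_one : s (-((q : ℝ) * v B.y)) q = 1
  isMin : B.IsMin (B.w q) M
  y_eq : B'.y = aeval (B.w q) M
  χ_eq : ∀ γ ∈ B.Γ, ∀ l : ℤ,
    B'.χ (γ + l * v B.y) = B.χ γ * B.y ^ l * (B.w q) ^ (-(s γ l))
  R_eq : B'.R = locv v (Algebra.adjoin k
    ((B.R : Set Ω) ∪ B'.χ '' {γ | γ ∈ B'.Γ ∧ 0 ≤ γ} ∪ {B.w q}))

theorem IsGStep.latData {B B' : BF k v} {q : ℕ} {M : B.R[X]} {s : ℝ → ℤ → ℤ}
    (h : IsGStep B B' q M s) : LatData B.Γ (v B.y) q s :=
  ⟨B.y_pos, h.q_pos, h.q_mem, h.q_min, h.s_add, h.s_one⟩

theorem BF.nonneg_aeval (B : BF k v) {w : Ω} (hw : v.Ge 0 w) (P : B.R[X]) :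
    v.Ge 0 (aeval w P) := by
  rw [Polynomial.aeval_eq_sum_range]
  have h1 : ∀ n : ℕ, v.Ge 0 (w ^ n) := by
    intro n
    induction n with
    | zero => rw [pow_zero]; intro _; rw [v.map_one]
    | succ n ih => rw [pow_succ]; simpa using ih.mul hw
  have h2 : ∀ s : Finset ℕ, v.Ge 0 (∑ i ∈ s, P.coeff i • w ^ i) := by
    intro s
    classical
    induction s using Finset.induction_on with
    | empty => rw [Finset.sum_empty]; intro h; exact absurd rfl h
    | insert a s ha ih =>
      rw [Finset.sum_insert ha]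
      refine RVal.Ge.add ?_ ih
      rw [Algebra.smul_def]
      simpa using (B.nonneg _ (P.coeff a).2).mul (h1 a)
  exact h2 _

/-- A polynomial with coefficients of positive value has positive value. -/
theorem BF.vpos_aeval (B : BF k v) {w : Ω} (hw : v.Ge 0 w) {P : B.R[X]}
    (hP : ∀ i, VPos v (P.coeff i : Ω)) : VPos v (aeval w P) := by
  rw [Polynomial.aeval_eq_sum_range]
  have h1 : ∀ n : ℕ, v.Ge 0 (w ^ n) := by
    intro n
    induction n with
    | zero => rw [pow_zero]; intro _; rw [v.map_one]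
    | succ n ih => rw [pow_succ]; simpa using ih.mul hw
  have h2 : ∀ s : Finset ℕ, VPos v (∑ i ∈ s, P.coeff i • w ^ i) := by
    intro s
    classical
    induction s using Finset.induction_on with
    | empty => rw [Finset.sum_empty]; exact VPos.zero
    | insert a s ha ih =>
      rw [Finset.sum_insert ha]
      refine VPos.add ?_ ih
      rw [Algebra.smul_def]
      exact VPos.mul (hP a) (h1 a)
  exact h2 _

/-- The minimal polynomial of a residue has a monic lift. -/
theorem BF.exists_isMin (h : Ctx2 k v r) (B : BF k v) {w : Ω} (hw : v.Ge 0 w) :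
    ∃ M : B.R[X], B.IsMin w M := by
  classical
  have hex : ∃ n : ℕ, ∃ M : B.R[X], M.natDegree = n ∧ M.Monic ∧ VPos v (aeval w M) := by
    obtain ⟨P, hP, hv⟩ := h.res' hw
    refine ⟨_, P.map (algebraMap k B.R), rfl, hP.map _, ?_⟩
    rwa [aeval_map_algebraMap]
  obtain ⟨M, hMn, hM, hMv⟩ := Nat.find_spec hex
  refine ⟨M, hM, hMv, ?_⟩
  -- strong induction on the degree
  have key : ∀ n : ℕ, ∀ P : B.R[X], P.natDegree = n → n < M.natDegree → VPos v (aeval w P) →
      ∀ i, VPos v (P.coeff i : Ω) := by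
    intro n
    induction n using Nat.strong_induction_on with
    | _ n ih =>
      intro P hPn hlt hv i
      have hlead : VPos v (P.leadingCoeff : Ω) := by
        by_contra hc
        unfold VPos at hc
        push Not at hc
        obtain ⟨h0, h1⟩ := hc
        have h2 : v (P.leadingCoeff : Ω) = 0 := le_antisymm h1 (B.nonneg _ P.leadingCoeff.2 h0)
        have h3 := B.loc _ P.leadingCoeff.2 h0 h2
        set Q : B.R[X] := C (⟨_, h3⟩ : B.R) * P with hQ
        have hcc : (⟨(P.leadingCoeff : Ω)⁻¹, h3⟩ : B.R) * P.leadingCoeff = 1 := by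
          apply Subtype.ext
          exact inv_mul_cancel₀ h0
        have hQm : Q.Monic := by
          rw [hQ]
          exact Polynomial.monic_C_mul_of_mul_leadingCoeff_eq_one hcc
        have hQn : Q.natDegree = n := by
          rw [hQ, ← hPn]
          refine Polynomial.natDegree_C_mul_of_mul_ne_zero ?_
          rw [hcc]
          exact one_ne_zero
        refine Nat.find_min hex (m := n) (by rw [← hMn]; exact hlt) ⟨Q, hQn, hQm, ?_⟩
        rw [hQ, map_mul, aeval_C]
        exact VPos.mul' (B.nonneg _ h3) hv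
      rcases Nat.eq_zero_or_pos n with hn | hn
      · -- constant
        have hPc : P = C (P.coeff 0) := Polynomial.eq_C_of_natDegree_eq_zero (hPn.trans hn)
        rcases Nat.eq_zero_or_pos i with hi | hi
        · rw [hi]
          rw [hPc, aeval_C] at hv
          exact hv
        · rw [Polynomial.coeff_eq_zero_of_natDegree_lt (by rw [hPn, hn]; exact hi)]
          exact VPos.zero
      · -- erase the leading term
        rcases eq_or_ne i P.natDegree with hi | hi
        · rw [hi]; exact hlead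
        · have h1 : P.eraseLead.natDegree < n := by
            rcases Nat.lt_or_ge (P.eraseLead.natDegree) n with h | h
            · exact h
            · exfalso
              have h2 := Polynomial.eraseLead_natDegree_le P
              rw [hPn] at h2
              omega
          have h2 : VPos v (aeval w P.eraseLead) := by
            have h3 : aeval w P.eraseLead =
                aeval w P - (P.leadingCoeff : Ω) * w ^ P.natDegree := by
              have h4 := congrArg (aeval w) (Polynomial.eraseLead_add_C_mul_X_pow P)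
              rw [map_add, map_mul, aeval_C, map_pow, aeval_X] at h4
              rw [← h4]
              exact (add_sub_cancel_right _ _).symm
            rw [h3]
            refine hv.sub (VPos.mul hlead ?_)
            have h5 : ∀ n : ℕ, v.Ge 0 (w ^ n) := by
              intro n
              induction n with
              | zero => rw [pow_zero]; intro _; rw [v.map_one]
              | succ n ih => rw [pow_succ]; simpa using ih.mul hw
            exact h5 _
          have h3 := ih _ h1 P.eraseLead rfl (h1.trans hlt) h2 i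
          rwa [Polynomial.eraseLead_coeff_of_ne _ hi] at h3
  intro P hP hv i
  exact key P.natDegree P rfl hP hv i

/-- `M(w) ≠ 0`. -/
theorem BF.aeval_w_ne_zero (h : Ctx2 k v r) (B : BF k v) {q : ℕ} (hq : 0 < q)
    (hqβ : (q : ℝ) * v B.y ∈ B.Γ) {M : B.R[X]} (hM : M.Monic) : aeval (B.w q) M ≠ 0 := by
  intro h0
  have hqpos : 0 < (q : ℝ) * v B.y := mul_pos (by exact_mod_cast hq) B.y_pos
  set g := B.χ (q * v B.y) with hg
  have hg0 : g ≠ 0 := B.χ_ne _ hqβ
  have hgR : g ∈ B.R := B.χ_mem _ hqβ hqpos.le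
  have hw : B.w q * g = B.y ^ q := by rw [BF.w, div_mul_cancel₀ _ hg0]
  rw [Polynomial.aeval_eq_sum_range, Finset.sum_range_succ, hM.coeff_natDegree, one_smul] at h0
  have h1 : B.y ^ (q * M.natDegree) =
      g * -(∑ i ∈ Finset.range M.natDegree,
        (M.coeff i : Ω) * (B.y ^ q) ^ i * g ^ (M.natDegree - 1 - i)) := by
    rw [pow_mul, ← hw, mul_pow]
    have h2 : B.w q ^ M.natDegree = -∑ i ∈ Finset.range M.natDegree, M.coeff i • B.w q ^ i :=
      (neg_eq_of_add_eq_zero_right h0).symm
    rw [h2, neg_mul, mul_neg, Finset.sum_mul, Finset.mul_sum]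
    congr 1
    refine Finset.sum_congr rfl fun i hi => ?_
    have hi' := Finset.mem_range.1 hi
    have h3 : M.natDegree = i + 1 + (M.natDegree - 1 - i) := by omega
    rw [Algebra.smul_def]
    have h4 : algebraMap B.R Ω (M.coeff i) = (M.coeff i : Ω) := rfl
    rw [h4, mul_pow]
    conv_lhs => rw [h3]
    rw [pow_add, pow_succ]
    ring
  refine B.reg2 h (q * M.natDegree) hqβ hqpos ?_ h1
  refine B.R.neg_mem (B.R.sum_mem fun i _ => ?_)
  exact B.R.mul_mem (B.R.mul_mem (M.coeff i).2 (B.R.pow_mem (B.R.pow_mem B.y_mem _) _))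
    (B.R.pow_mem hgR _)

theorem aeval_mem_adjoin_base (R : Subalgebra k Ω) (w : Ω) (P : R[X]) :
    aeval w P ∈ Algebra.adjoin k ((R : Set Ω) ∪ {w}) := by
  rw [Polynomial.aeval_eq_sum_range]
  refine Subalgebra.sum_mem _ fun i _ => ?_
  rw [Algebra.smul_def]
  have h1 : algebraMap R Ω (P.coeff i) ∈ (R : Set Ω) ∪ {w} := Or.inl (P.coeff i).2
  have h2 : w ∈ (R : Set Ω) ∪ {w} := Or.inr rfl
  exact Subalgebra.mul_mem _ (Algebra.subset_adjoin h1)
    (Subalgebra.pow_mem _ (Algebra.subset_adjoin h2) _)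

theorem exists_aeval_of_mem_adjoin_base (R : Subalgebra k Ω) (w : Ω) {c : Ω}
    (hc : c ∈ Algebra.adjoin k ((R : Set Ω) ∪ {w})) : ∃ P : R[X], c = aeval w P := by
  induction hc using Algebra.adjoin_induction with
  | mem x hx =>
    rcases hx with hx | rfl
    · exact ⟨C ⟨x, hx⟩, by rw [aeval_C]; rfl⟩
    · exact ⟨X, by rw [aeval_X]⟩
  | algebraMap c => exact ⟨C (algebraMap k ↥R c), by rw [aeval_C]; rfl⟩
  | add x z _ _ hx hz =>
    obtain ⟨P, rfl⟩ := hx
    obtain ⟨Q, rfl⟩ := hz
    exact ⟨P + Q, by rw [map_add]⟩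
  | mul x z _ _ hx hz =>
    obtain ⟨P, rfl⟩ := hx
    obtain ⟨Q, rfl⟩ := hz
    exact ⟨P * Q, by rw [map_mul]⟩

/-- General construction of a G-step from the data `q, s, M`. -/
theorem BF.exists_gstep_of (h : Ctx2 k v r) (B : BF k v) {q : ℕ} {s : ℝ → ℤ → ℤ}
    (hL : LatData B.Γ (v B.y) q s) {M : B.R[X]} (hM : B.IsMin (B.w q) M) :
    ∃ B' : BF k v, IsGStep B B' q M s := by
  have hY := B.y_ne
  have hw : B.y ^ q = B.χ (q * v B.y) * B.w q := by
    rw [BF.w, mul_div_cancel₀ _ (B.χ_ne _ hL.q_mem)]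
  have hw0 : B.w q ≠ 0 := BF.w_ne_zero hY hw
  have hvw : v (B.w q) = 0 := BF.v_w_zero hY hL hw
  have hne := B.aeval_w_ne_zero h hL.q_pos hL.q_mem hM.monic
  have hTR : Algebra.adjoin k ((B.R : Set Ω) ∪ {B.w q}) ≤ B.radj B.y (B.w q) s := by
    refine Algebra.adjoin_le ?_
    rintro f (hf | rfl)
    · exact BF.mem_radj hf
    · exact BF.w_mem_radj
  have hyR : aeval (B.w q) M ∈ B.radj B.y (B.w q) s := hTR (aeval_mem_adjoin_base _ _ _)
  have hβ : v B.y ∈ B.Γ ⊔ AddSubgroup.zmultiples (v B.y) :=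
    AddSubgroup.mem_sup_right (AddSubgroup.mem_zmultiples _)
  have H := BF.pre_adjoin2 hY hL hw h.triv _ hne (hM.vpos hne) hyR
  obtain ⟨B', h1, h2, h3, h4⟩ := BF.exists_adjoin2 hY hL hw h.triv (aeval (B.w q) M) hne
    (hM.vpos hne) hyR (by
      intro c hc hv
      obtain ⟨P, rfl⟩ := exists_aeval_of_mem_adjoin_base _ _ hc
      have hdiv := congrArg (aeval (B.w q)) (Polynomial.modByMonic_add_div P M)
      rw [map_add, map_mul] at hdiv
      have hQ : aeval (B.w q) (P /ₘ M) ∈ B.radj B.y (B.w q) s := hTR (aeval_mem_adjoin_base _ _ _)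
      have hy1 : MM (B.Γ ⊔ AddSubgroup.zmultiples (v B.y)) (B.chi' B.y (B.w q) s)
          (aeval (B.w q) M) (B.radj B.y (B.w q) s)
          (aeval (B.w q) M * aeval (B.w q) (P /ₘ M)) := H.mm_y hQ
      have hvr : VPos v (aeval (B.w q) (P %ₘ M)) := by
        have h5 : aeval (B.w q) (P %ₘ M) =
            aeval (B.w q) P - aeval (B.w q) M * aeval (B.w q) (P /ₘ M) := by
          rw [← hdiv]; exact (add_sub_cancel_right _ _).symm
        rw [h5]
        exact hv.sub (H.mm_vpos hy1)
      have hdeg : (P %ₘ M).natDegree < M.natDegree := by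
        refine Polynomial.natDegree_modByMonic_lt P hM.monic ?_
        intro h6
        have h7 := hM.vpos
        rw [h6, map_one] at h7
        have h8 := h7 one_ne_zero
        rw [v.map_one] at h8
        exact lt_irrefl _ h8
      have hcoef := hM.min _ hdeg hvr
      rw [← hdiv]
      refine H.mm_add ?_ hy1
      rw [Polynomial.aeval_eq_sum_range (p := P %ₘ M)]
      have hsum : ∀ t : Finset ℕ, MM (B.Γ ⊔ AddSubgroup.zmultiples (v B.y))
          (B.chi' B.y (B.w q) s) (aeval (B.w q) M) (B.radj B.y (B.w q) s)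
          (∑ i ∈ t, (P %ₘ M).coeff i • B.w q ^ i) := by
        intro t
        classical
        induction t using Finset.induction_on with
        | empty => rw [Finset.sum_empty]; exact H.mm_zero
        | insert a t ha ih =>
          rw [Finset.sum_insert ha]
          refine H.mm_add ?_ ih
          rw [Algebra.smul_def]
          refine H.mm_mul ?_ ((B.radj B.y (B.w q) s).pow_mem BF.w_mem_radj a)
          refine BF.mm_adjoin2 hY hL hw H (fun b hb => ?_) ((P %ₘ M).coeff a).2 (hcoef a)
          exact ⟨v B.y, hβ, B.y_pos, (B.w q) ^ (s 0 1) * b,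
            Subalgebra.mul_mem _ (BF.wz_mem_radj hY hw hvw _) (BF.mem_radj hb),
            0, Subalgebra.zero_mem _, by
              rw [mul_zero, add_zero, ← mul_assoc]
              congr 1
              exact BF.Y_eq hY hL hw⟩
      exact hsum _)
  refine ⟨B', ⟨hL.q_pos, hL.q_mem, hL.q_min, h1, hL.s_add, hL.s_one, hM, h3, ?_, ?_⟩⟩
  · intro γ hγ l
    rw [h2]
    exact BF.chi'_eq hY hL hw hγ l
  · rw [h4, h1, h2]; rfl

end Pool.Agent.LU1
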