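import Pool.Agent.Lib.LU2_base.Rep
import Pool.Agent.Lib.LU1_h15.Rad

/-! # LU2 base: construction of frames from generators, general residue fields -/

set_option autoImplicit false

namespace Pool.Agent.LU1

open Pool.Agent.H15JM (RVal)
open Polynomial

universe u

variable {k Ω : Type u} [Field k] [Field Ω] [Algebra k Ω] {v : RVal Ω} {r : ℕ}

namespace Pre

variable {Γ : AddSubgroup ℝ} {χ : ℝ → Ω} {y : Ω} {R : Subalgebra k Ω}

/-- If the generators are elements of `T` plus elements of `MM`, and the elements of `T` of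
positive value are in `MM`, then `MM` is the set of elements of positive value. -/
theorem gen2 (H : Pre v Γ χ y R) {T : Subalgebra k Ω} {S : Set Ω}
    (hR : R = locv v (Algebra.adjoin k S)) (hT : T ≤ R)
    (hTp : ∀ c ∈ T, VPos v c → MM Γ χ y R c)
    (hS : ∀ f ∈ S, ∃ c ∈ T, MM Γ χ y R (f - c)) :
    ∀ f ∈ R, VPos v f → MM Γ χ y R f := by
  have key : ∀ f ∈ Algebra.adjoin k S, ∃ c ∈ T, MM Γ χ y R (f - c) := by
    intro f hf
    induction hf using Algebra.adjoin_induction with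
    | mem x hx => exact hS x hx
    | algebraMap c => exact ⟨_, T.algebraMap_mem c, by rw [sub_self]; exact H.mm_zero⟩
    | add x z _ _ hx hz =>
      obtain ⟨c, hcT, hc⟩ := hx
      obtain ⟨d, hdT, hd⟩ := hz
      refine ⟨c + d, T.add_mem hcT hdT, ?_⟩
      have := H.mm_add hc hd
      convert this using 1
      ring
    | mul x z hx' hz' hx hz =>
      obtain ⟨c, hcT, hc⟩ := hx
      obtain ⟨d, hdT, hd⟩ := hz
      have hzR : z ∈ R := by rw [hR]; exact le_locv _ hz'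
      refine ⟨c * d, T.mul_mem hcT hdT, ?_⟩
      have := H.mm_add (H.mm_mul hc hzR) (H.mm_mul hd (hT hcT))
      convert this using 1
      ring
  intro f hf hv
  have hf' := hf
  rw [hR] at hf'
  obtain ⟨a, ha, b, hb, hb0, hvb, rfl⟩ := hf'
  have hbR : b ∈ R := by rw [hR]; exact le_locv _ hb
  have hva : VPos v a := by
    intro ha0
    have h1 := hv (div_ne_zero ha0 hb0)
    rwa [v.map_div ha0 hb0, hvb, sub_zero] at h1
  obtain ⟨c, hcT, hc⟩ := key a ha
  have hvc : VPos v c := by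
    have := hva.sub (H.mm_vpos hc)
    rwa [sub_sub_cancel] at this
  have h2 := H.mm_add hc (hTp c hcT hvc)
  rw [sub_add_cancel] at h2
  rw [div_eq_mul_inv]
  exact H.mm_mul h2 (H.loc b hbR hb0 hvb)

end Pre

/-- Construction of a frame. -/
noncomputable def mkBF2 {Γ : AddSubgroup ℝ} {χ : ℝ → Ω} {y : Ω} {R : Subalgebra k Ω}
    (H : Pre v Γ χ y R) (fg : Γ.FG) (hgen : ∀ f ∈ R, VPos v f → MM Γ χ y R f)
    (fgen : ∃ F : Finset Ω,
      R = locv v (Algebra.adjoin k ((F : Set Ω) ∪ χ '' {γ | γ ∈ Γ ∧ 0 ≤ γ})))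
    (alg : ∀ g : Ω, IsAlgebraic R g) : BF k v where
  Γ := Γ
  fg := fg
  full := H.full
  χ := χ
  χ_ne := H.χ_ne
  χ_add := H.χ_add
  χ_val := H.χ_val
  y := y
  y_ne := H.y_ne
  y_pos := H.y_pos
  R := R
  nonneg := H.nonneg
  loc := H.loc
  χ_mem := H.χ_mem
  y_mem := H.y_mem
  fgen := fgen
  gen := hgen
  alg := alg

section chi

variable {B : BF k v} {Y w : Ω} {q : ℕ} {s : ℝ → ℤ → ℤ}
variable (hY : Y ≠ 0) (hL : LatData B.Γ (v Y) q s) (hw : Y ^ q = B.χ (q * v Y) * w)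

include hY hL hw

theorem BF.pre_adjoin2 (htriv : ∀ c : k, c ≠ 0 → v (algebraMap k Ω c) = 0)
    (y' : Ω) (hy0 : y' ≠ 0) (hyv : 0 < v y')
    (hy : y' ∈ B.radj Y w s) :
    Pre v (B.Γ ⊔ AddSubgroup.zmultiples (v Y)) (B.chi' Y w s) y' (B.radj Y w s) :=
  { full := fun g hg => by
      obtain ⟨m, hm, h1⟩ := B.full g hg
      exact ⟨m, hm, AddSubgroup.mem_sup_left h1⟩
    χ_ne := fun γ hγ => BF.chi'_ne hY hL hw hγ
    χ_add := fun γ hγ δ hδ => BF.chi'_add hY hL hw hγ hδ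
    χ_val := fun γ hγ => BF.chi'_val hY hL hw hγ
    y_ne := hy0
    y_pos := hyv
    nonneg := by
      refine locv_nonneg ?_
      intro f hf
      induction hf using Algebra.adjoin_induction with
      | mem x hx =>
        rcases hx with (hf | ⟨γ, ⟨hγ, h0⟩, rfl⟩) | rfl
        · exact B.nonneg x hf
        · intro _; rw [BF.chi'_val hY hL hw hγ]; exact h0
        · intro _; exact (BF.v_w_zero hY hL hw).ge
      | algebraMap c =>
        intro h0
        have h1 : c ≠ 0 := by rintro rfl; simp at h0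
        rw [htriv c h1]
      | add x y _ _ hx hy => exact hx.add hy
      | mul x y _ _ hx hy => simpa using hx.mul hy
    loc := fun f hf h0 h1 => locv_inv hf h0 h1
    χ_mem := fun γ hγ h0 => BF.chi'_mem_radj hγ h0
    y_mem := hy }

/-- Elements of positive value of the old ring are in `MM`. -/
theorem BF.mm_adjoin2 {y' : Ω}
    (H : Pre v (B.Γ ⊔ AddSubgroup.zmultiples (v Y)) (B.chi' Y w s) y' (B.radj Y w s))
    (hyr : ∀ b ∈ B.R, MM (B.Γ ⊔ AddSubgroup.zmultiples (v Y)) (B.chi' Y w s) y'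
      (B.radj Y w s) (B.y * b)) {f : Ω} (hf : f ∈ B.R) (hv : VPos v f) :
    MM (B.Γ ⊔ AddSubgroup.zmultiples (v Y)) (B.chi' Y w s) y' (B.radj Y w s) f := by
  obtain ⟨γ, hγ, h0, a, ha, b, hb, h1⟩ := B.gen _ hf hv
  rw [h1]
  refine H.mm_add ?_ (hyr b hb)
  rw [BF.chi_eq hY hL hw hγ, mul_assoc]
  exact H.mm_χ (AddSubgroup.mem_sup_left hγ) h0 ((B.radj Y w s).mul_mem
    (BF.wz_mem_radj hY hw (BF.v_w_zero hY hL hw) _) (BF.mem_radj ha))

/-- The frame obtained by adjoining `Y`: the monomials `χ'`, the unit `w` and a new last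
parameter `y'`. -/
theorem BF.exists_adjoin2 (htriv : ∀ c : k, c ≠ 0 → v (algebraMap k Ω c) = 0)
    (y' : Ω) (hy0 : y' ≠ 0) (hyv : 0 < v y')
    (hy : y' ∈ B.radj Y w s)
    (hgen : ∀ c ∈ Algebra.adjoin k ((B.R : Set Ω) ∪ {w}), VPos v c →
      MM (B.Γ ⊔ AddSubgroup.zmultiples (v Y)) (B.chi' Y w s) y' (B.radj Y w s) c) :
    ∃ B' : BF k v, B'.Γ = B.Γ ⊔ AddSubgroup.zmultiples (v Y) ∧ B'.χ = B.chi' Y w s ∧
      B'.y = y' ∧ B'.R = B.radj Y w s := by
  have hw0 : w ≠ 0 := BF.w_ne_zero hY hw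
  have hvw : v w = 0 := BF.v_w_zero hY hL hw
  have hΓle : ∀ γ ∈ B.Γ, γ ∈ B.Γ ⊔ AddSubgroup.zmultiples (v Y) :=
    fun γ hγ => AddSubgroup.mem_sup_left hγ
  have H := BF.pre_adjoin2 hY hL hw htriv y' hy0 hyv hy
  have hTR : Algebra.adjoin k ((B.R : Set Ω) ∪ {w}) ≤ B.radj Y w s := by
    refine Algebra.adjoin_le ?_
    rintro f (hf | rfl)
    · exact BF.mem_radj hf
    · exact BF.w_mem_radj
  have hSres : ∀ f ∈ (B.R : Set Ω) ∪
      B.chi' Y w s '' {γ | γ ∈ B.Γ ⊔ AddSubgroup.zmultiples (v Y) ∧ 0 ≤ γ} ∪ {w},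
      ∃ c ∈ Algebra.adjoin k ((B.R : Set Ω) ∪ {w}),
      MM (B.Γ ⊔ AddSubgroup.zmultiples (v Y)) (B.chi' Y w s) y' (B.radj Y w s) (f - c) := by
    rintro f ((hf | ⟨γ, ⟨hγ, h0⟩, rfl⟩) | rfl)
    · exact ⟨f, Algebra.subset_adjoin (Or.inl hf), by rw [sub_self]; exact H.mm_zero⟩
    · rcases h0.lt_or_eq with h1 | h1
      · refine ⟨0, Subalgebra.zero_mem _, ?_⟩
        have := H.mm_χ hγ h1 (B.radj Y w s).one_mem
        rwa [mul_one, ← sub_zero (B.chi' Y w s γ)] at this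
      · refine ⟨1, Subalgebra.one_mem _, ?_⟩
        rw [← h1, H.χ_zero, sub_self]
        exact H.mm_zero
    · exact ⟨f, Algebra.subset_adjoin (Or.inr rfl), by rw [sub_self]; exact H.mm_zero⟩
  refine ⟨mkBF2 H (fg_sup _ B.fg _) (H.gen2 rfl hTR hgen hSres) ?_ ?_, rfl, rfl, rfl, rfl⟩
  · obtain ⟨F0, hF0⟩ := B.fgen
    classical
    refine ⟨insert w F0, le_antisymm ?_ ?_⟩
    · set T : Set Ω := ((insert w F0 : Finset Ω) : Set Ω) ∪
        B.chi' Y w s '' {γ | γ ∈ B.Γ ⊔ AddSubgroup.zmultiples (v Y) ∧ 0 ≤ γ} with hT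
      have hwT : w ∈ locv v (Algebra.adjoin k T) :=
        le_locv _ (Algebra.subset_adjoin (Or.inl (by simp)))
      have hwzT : ∀ n : ℤ, w ^ n ∈ locv v (Algebra.adjoin k T) := by
        intro n
        cases n with
        | ofNat n => simpa using (locv v (Algebra.adjoin k T)).pow_mem hwT n
        | negSucc n =>
          rw [zpow_negSucc, ← inv_pow]
          exact (locv v (Algebra.adjoin k T)).pow_mem (locv_inv hwT hw0 hvw) _
      have hχT : ∀ γ ∈ B.Γ ⊔ AddSubgroup.zmultiples (v Y), 0 ≤ γ →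
          B.chi' Y w s γ ∈ locv v (Algebra.adjoin k T) := fun γ hγ h0 =>
        le_locv _ (Algebra.subset_adjoin (Or.inr ⟨γ, ⟨hγ, h0⟩, rfl⟩))
      refine locv_adjoin_le ?_
      rintro f ((hf | ⟨γ, ⟨hγ, h0⟩, rfl⟩) | rfl)
      · have h1 : locv v (Algebra.adjoin k ((F0 : Set Ω) ∪ B.χ '' {γ | γ ∈ B.Γ ∧ 0 ≤ γ})) ≤
            locv v (Algebra.adjoin k T) := by
          refine locv_adjoin_le ?_
          rintro f (hf | ⟨γ, ⟨hγ, h0⟩, rfl⟩)
          · exact le_locv _ (Algebra.subset_adjoin (Or.inl (by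
              rw [Finset.coe_insert]; exact Or.inr hf)))
          · rw [BF.chi_eq hY hL hw hγ]
            exact (locv v (Algebra.adjoin k T)).mul_mem (hχT γ (hΓle γ hγ) h0) (hwzT _)
        exact h1 (hF0 ▸ hf)
      · exact hχT γ hγ h0
      · exact hwT
    · refine locv_adjoin_le ?_
      rintro f (hf | ⟨γ, ⟨hγ, h0⟩, rfl⟩)
      · rw [Finset.coe_insert] at hf
        rcases hf with rfl | hf
        · exact BF.w_mem_radj
        · refine BF.mem_radj ?_
          rw [hF0]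
          exact le_locv _ (Algebra.subset_adjoin (Or.inl hf))
      · exact BF.chi'_mem_radj hγ h0
  · intro g
    exact isAlgebraic_of_le (fun f hf => BF.mem_radj hf) (B.alg g)

end chi

/-- The frame `(Γ, χ, y', locv (R[Z]))`. -/
theorem BF.exists_extend2 (htriv : ∀ c : k, c ≠ 0 → v (algebraMap k Ω c) = 0) (B : BF k v)
    {Z y' : Ω} (hZ : v.Ge 0 Z) (hy0 : y' ≠ 0) (hyv : 0 < v y')
    (hy : y' ∈ locv v (Algebra.adjoin k ((B.R : Set Ω) ∪ {Z})))
    (hgen : ∀ c ∈ Algebra.adjoin k ((B.R : Set Ω) ∪ {Z}), VPos v c →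
      MM B.Γ B.χ y' (locv v (Algebra.adjoin k ((B.R : Set Ω) ∪ {Z}))) c) :
    ∃ B' : BF k v, B'.Γ = B.Γ ∧ B'.χ = B.χ ∧ B'.y = y' ∧
      B'.R = locv v (Algebra.adjoin k ((B.R : Set Ω) ∪ {Z})) ∧
      ∀ E : IntermediateField k Ω, FracIs B.R E → FracIs B'.R (adj E Z) := by
  set S : Set Ω := (B.R : Set Ω) ∪ {Z} with hS
  set R' := locv v (Algebra.adjoin k S) with hR'
  have hRR : ∀ f ∈ B.R, f ∈ R' := fun f hf =>
    le_locv _ (Algebra.subset_adjoin (Or.inl hf))
  have hZR : Z ∈ R' := le_locv _ (Algebra.subset_adjoin (Or.inr rfl))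
  have H : Pre v B.Γ B.χ y' R' :=
    { full := B.full
      χ_ne := B.χ_ne
      χ_add := B.χ_add
      χ_val := B.χ_val
      y_ne := hy0
      y_pos := hyv
      nonneg := by
        refine locv_nonneg ?_
        intro f hf
        induction hf using Algebra.adjoin_induction with
        | mem x hx =>
          rcases hx with hf | rfl
          · exact B.nonneg x hf
          · exact hZ
        | algebraMap c =>
          intro h0
          have h1 : c ≠ 0 := by rintro rfl; simp at h0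
          rw [htriv c h1]
        | add x y _ _ hx hy => exact hx.add hy
        | mul x y _ _ hx hy => simpa using hx.mul hy
      loc := fun f hf h0 h1 => locv_inv hf h0 h1
      χ_mem := fun γ hγ h0 => hRR _ (B.χ_mem γ hγ h0)
      y_mem := hy }
  refine ⟨mkBF2 H B.fg (H.gen2 (T := Algebra.adjoin k S) hR' (le_locv _) hgen ?_) ?_ ?_,
    rfl, rfl, rfl, rfl, fun E hE => fracIs_iff.2 ⟨?_, ?_⟩⟩
  · intro f hf
    exact ⟨f, Algebra.subset_adjoin hf, by rw [sub_self]; exact H.mm_zero⟩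
  · obtain ⟨F0, hF0⟩ := B.fgen
    classical
    refine ⟨insert Z F0, le_antisymm ?_ ?_⟩
    · refine locv_adjoin_le ?_
      rintro f (hf | rfl)
      · have h1 : locv v (Algebra.adjoin k ((F0 : Set Ω) ∪ B.χ '' {γ | γ ∈ B.Γ ∧ 0 ≤ γ})) ≤
            locv v (Algebra.adjoin k (((insert Z F0 : Finset Ω) : Set Ω) ∪
              B.χ '' {γ | γ ∈ B.Γ ∧ 0 ≤ γ})) := by
          refine locv_adjoin_le ?_
          rintro f (hf | hf)
          · exact le_locv _ (Algebra.subset_adjoin (Or.inl (by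
              rw [Finset.coe_insert]; exact Or.inr hf)))
          · exact le_locv _ (Algebra.subset_adjoin (Or.inr hf))
        exact h1 (hF0 ▸ hf)
      · exact le_locv _ (Algebra.subset_adjoin (Or.inl (by simp)))
    · refine locv_adjoin_le ?_
      rintro f (hf | ⟨γ, ⟨hγ, h0⟩, rfl⟩)
      · rw [Finset.coe_insert] at hf
        rcases hf with rfl | hf
        · exact hZR
        · refine hRR f ?_
          rw [hF0]
          exact le_locv _ (Algebra.subset_adjoin (Or.inl hf))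
      · exact hRR _ (B.χ_mem γ hγ h0)
  · intro g
    exact isAlgebraic_of_le (fun f hf => hRR f hf) (B.alg g)
  · refine locv_field (adjoin_field ?_)
    rintro f (hf | rfl)
    · exact le_adj E _ (hE.1 f hf)
    · exact mem_adj E _
  · exact adj_le ((fracIs_iff.1 hE).2.trans (quo_mono fun f hf => hRR f hf)) (le_quo hZR)

end Pool.Agent.LU1
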