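import Pool.Agent.Lib.LU2_base.NF
import Pool.Agent.Lib.LU1_h15.Reg

/-! # LU2 base: regularity -/

set_option autoImplicit false

namespace Pool.Agent.LU1

open Pool.Agent.H15JM (RVal)
open Polynomial

universe u

variable {k Ω : Type u} [Field k] [Field Ω] [Algebra k Ω] {v : RVal Ω} {r : ℕ}

/-- A monic polynomial with non-zero constant term killing the residue of a unit. -/
theorem Ctx2.res0 (h : Ctx2 k v r) {g : Ω} (h0 : g ≠ 0) (h1 : v g = 0) :
    ∃ P : k[X], P.Monic ∧ P.coeff 0 ≠ 0 ∧ VPos v (aeval g P) := by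
  have key : ∀ n : ℕ, ∀ P : k[X], P.natDegree = n → P.Monic → VPos v (aeval g P) →
      ∃ P : k[X], P.Monic ∧ P.coeff 0 ≠ 0 ∧ VPos v (aeval g P) := by
    intro n
    induction n with
    | zero =>
      intro P hn hm hP
      have h2 : P = 1 := hm.natDegree_eq_zero.1 hn
      rw [h2, map_one] at hP
      have h3 := hP one_ne_zero
      rw [v.map_one] at h3
      exact absurd h3 (lt_irrefl _)
    | succ n ih =>
      intro P hn hm hP
      by_cases hc : P.coeff 0 = 0
      · have h2 : P = P.divX * X := by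
          conv_lhs => rw [← Polynomial.divX_mul_X_add P]
          rw [hc, C_0, add_zero]
        refine ih P.divX (by rw [Polynomial.natDegree_divX_eq_natDegree_tsub_one, hn]; rfl) ?_ ?_
        · have h3 : (P.divX * X).Monic := by rw [← h2]; exact hm
          exact monic_X.of_mul_monic_right h3
        · intro h3
          have h4 : aeval g P = aeval g P.divX * g := by
            conv_lhs => rw [h2]
            rw [map_mul, aeval_X]
          have h5 := hP (by rw [h4]; exact mul_ne_zero h3 h0)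
          rwa [h4, v.map_mul h3 h0, h1, add_zero] at h5
      · exact ⟨P, hm, hc, hP⟩
  obtain ⟨P, hm, hP⟩ := h.res g h0 h1
  exact key _ P rfl hm hP

theorem NF.dim_ge2 (h : Ctx2 k v r) (N : NF k v r) :
    ((r + 1 : ℕ) : WithBot ℕ∞) ≤ ringKrullDim N.R := by
  obtain ⟨F, hF⟩ := N.fgen
  let A : Subalgebra k Ω := Algebra.adjoin k (F : Set Ω)
  have hle : A ≤ N.R := by
    rw [hF]
    exact le_locv A
  have hA0 : ∀ a ∈ A, v.Ge 0 a := fun a ha => N.nonneg a (hle ha)
  let _ : Algebra A N.R := (Subalgebra.inclusion hle).toRingHom.toAlgebra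
  let p : Ideal A :=
    { carrier := {a | VPos v (a : Ω)}
      add_mem' := fun {a b} ha hb => by
        have := VPos.add ha hb
        exact this
      zero_mem' := VPos.zero
      smul_mem' := fun c a ha => by
        have := VPos.mul' (hA0 c c.2) ha
        exact this }
  have hmem : ∀ a : A, a ∈ p ↔ VPos v (a : Ω) := fun a => Iff.rfl
  have h1p : (1 : A) ∉ p := by
    intro h1
    have h2 := ((hmem 1).1 h1) one_ne_zero
    have h3 : v ((1 : A) : Ω) = 0 := v.map_one
    rw [h3] at h2
    exact lt_irrefl _ h2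
  have hp : p.IsMaximal := by
    rw [Ideal.isMaximal_iff]
    refine ⟨h1p, fun J x hJ hx hxJ => ?_⟩
    have hx0 : (x : Ω) ≠ 0 := fun h0 => hx (by rw [hmem, h0]; exact VPos.zero)
    have hxv : v (x : Ω) = 0 := by
      by_contra h1
      exact hx (fun _ => lt_of_le_of_ne (hA0 x x.2 hx0) (Ne.symm h1))
    obtain ⟨P, -, hc0, hP⟩ := h.res0 hx0 hxv
    set c := P.coeff 0 with hcdef
    have hPx : aeval x P ∈ p := by
      rw [hmem]
      have h3 : ((aeval x P : A) : Ω) = aeval (x : Ω) P := by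
        exact (Polynomial.aeval_algHom_apply A.val x P).symm
      rw [h3]
      exact hP
    have h2 : algebraMap k A c ∈ J := by
      have h3 : aeval x P = aeval x P.divX * x + algebraMap k A c := by
        conv_lhs => rw [← Polynomial.divX_mul_X_add P]
        rw [map_add, map_mul, aeval_X, aeval_C]
      have h4 := J.sub_mem (hJ hPx) (J.mul_mem_left (aeval x P.divX) hxJ)
      rwa [h3, add_sub_cancel_left] at h4
    have h4 := J.mul_mem_left (algebraMap k A c⁻¹) h2
    rwa [← _root_.map_mul, inv_mul_cancel₀ hc0, _root_.map_one] at h4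
  have hpr : p.IsPrime := hp.isPrime
  have hloc : IsLocalization.AtPrime N.R p := by
    rw [IsLocalization.AtPrime, isLocalization_iff]
    refine ⟨?_, ?_, ?_⟩
    · rintro ⟨y, hy⟩
      have hy0 : (y : Ω) ≠ 0 := by
        intro h0
        apply hy
        rw [SetLike.mem_coe, hmem, h0]
        exact VPos.zero
      have hyv : v (y : Ω) = 0 := by
        by_contra h1
        apply hy
        rw [SetLike.mem_coe, hmem]
        intro _
        exact lt_of_le_of_ne (hA0 y y.2 hy0) (Ne.symm h1)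
      have hinv : (y : Ω)⁻¹ ∈ N.R := by
        rw [hF]
        exact locv_inv (le_locv A y.2) hy0 hyv
      refine IsUnit.of_mul_eq_one ⟨(y : Ω)⁻¹, hinv⟩ ?_
      apply Subtype.ext
      exact mul_inv_cancel₀ hy0
    · rintro ⟨z, hzR⟩
      have hz : z ∈ locv v A := by
        rw [← hF]
        exact hzR
      obtain ⟨a, ha, b, hb, hb0, hvb, hab⟩ := hz
      refine ⟨(⟨a, ha⟩, ⟨⟨b, hb⟩, ?_⟩), ?_⟩
      · intro h1
        have h2 := ((hmem _).1 h1) hb0
        change 0 < v b at h2
        rw [hvb] at h2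
        exact lt_irrefl _ h2
      · apply Subtype.ext
        change z * b = a
        rw [hab, div_mul_cancel₀ _ hb0]
    · intro x y hxy
      refine ⟨1, ?_⟩
      have h1 : (x : Ω) = y := congrArg (fun t : N.R => (t : Ω)) hxy
      rw [Subtype.ext h1]
  have hft : Algebra.FiniteType k A := (Subalgebra.fg_iff_finiteType _).1 ⟨F, rfl⟩
  have htow : IsScalarTower A N.R Ω := IsScalarTower.of_algebraMap_eq fun _ => rfl
  have halg1 : Algebra.IsAlgebraic A N.R := IsLocalization.isAlgebraic N.R p.primeCompl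
  have halg2 : Algebra.IsAlgebraic N.R Ω := ⟨N.alg⟩
  have halg : Algebra.IsAlgebraic A Ω := Algebra.IsAlgebraic.trans A N.R Ω
  have h1 := RegAux.le_height (A := A) (r + 1) (by rw [h.trdeg]; push_cast; rfl) p hp
  rw [IsLocalization.AtPrime.ringKrullDim_eq_height p N.R]
  exact_mod_cast h1


/-- A noetherian frame has dimension `r + 1`. -/
theorem NF.dim2 (h : Ctx2 k v r) (N : NF k v r) : ringKrullDim N.R = r + 1 := by
  have h1 := N.isNoetherian
  have h2 := N.isLocalRing
  apply le_antisymm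
  · refine (ringKrullDim_le_spanFinrank_maximalIdeal N.R).trans ?_
    exact_mod_cast N.spanFinrank_le
  · have h3 := N.dim_ge2 h
    exact_mod_cast h3


theorem NF.regular2 (h : Ctx2 k v r) (N : NF k v r) : IsRegularLocalRing N.R := by
  have h1 := N.isNoetherian
  have h2 := N.isLocalRing
  apply IsRegularLocalRing.of_spanFinrank_maximalIdeal_le
  rw [N.dim2 h]
  exact_mod_cast N.spanFinrank_le


/-- No power of `y` is in the ideal generated by the `x_i`. -/
theorem NF.reg2 (h : Ctx2 k v r) (N : NF k v r) (D : ℕ) (a : Fin r → Ω) (ha : ∀ i, a i ∈ N.R) :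
    N.y ^ D ≠ ∑ i, N.x i * a i := by
  classical
  intro hy
  have h1 := N.isNoetherian
  have h2 := N.isLocalRing
  let s : Finset N.R := Finset.univ.image fun i : Fin r => N.par (some i)
  have hyJ : N.par none ^ D ∈ Ideal.span (s : Set N.R) := by
    have h3 : N.par none ^ D = ∑ i, N.par (some i) * ⟨a i, ha i⟩ := by
      apply Subtype.ext
      push_cast
      exact hy
    rw [h3]
    refine Ideal.sum_mem _ fun i _ => Ideal.mul_mem_right _ _ (Ideal.subset_span ?_)
    exact Finset.mem_coe.2 (Finset.mem_image_of_mem _ (Finset.mem_univ i))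
  have hmin : IsLocalRing.maximalIdeal N.R ∈ (Ideal.span (s : Set N.R)).minimalPrimes := by
    refine ⟨⟨(IsLocalRing.maximalIdeal.isMaximal N.R).isPrime, ?_⟩, ?_⟩
    · rw [N.maximalIdeal_eq]
      apply Ideal.span_mono
      intro z hz
      obtain ⟨i, -, rfl⟩ := Finset.mem_image.1 (Finset.mem_coe.1 hz)
      exact ⟨some i, rfl⟩
    · rintro q ⟨hq, hJq⟩ _
      rw [N.maximalIdeal_eq, Ideal.span_le]
      rintro _ ⟨o, rfl⟩
      cases o with
      | none => exact hq.mem_of_pow_mem D (hJq hyJ)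
      | some i =>
        exact hJq (Ideal.subset_span (Finset.mem_coe.2
          (Finset.mem_image_of_mem _ (Finset.mem_univ i))))
  have h3 := Ideal.height_le_card_of_mem_minimalPrimes_span_finset hmin
  have h4 : s.card ≤ r := by
    refine Finset.card_image_le.trans ?_
    simp
  have h5 : ((IsLocalRing.maximalIdeal N.R).height : WithBot ℕ∞) = ringKrullDim N.R :=
    IsLocalRing.maximalIdeal_height_eq_ringKrullDim
  rw [N.dim2 h] at h5
  have h6 : (IsLocalRing.maximalIdeal N.R).height = ((r + 1 : ℕ) : ℕ∞) := by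
    have h7 : ((IsLocalRing.maximalIdeal N.R).height : WithBot ℕ∞) =
        (((r + 1 : ℕ) : ℕ∞) : WithBot ℕ∞) := by
      rw [h5]
      push_cast
      rfl
    exact_mod_cast h7
  rw [h6] at h3
  have h8 : r + 1 ≤ s.card := by exact_mod_cast h3
  omega


theorem BF.reg2 (h : Ctx2 k v r) (B : BF k v) (D : ℕ) {γ : ℝ} (hγ : γ ∈ B.Γ) (h0 : 0 < γ) {a : Ω}
    (ha : a ∈ B.R) : B.y ^ D ≠ B.χ γ * a := by
  classical
  intro hy
  obtain ⟨S0, G, hS0, -, -, hG⟩ := B.exists_NF2 h {a} (by
    intro f hf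
    rw [Finset.mem_singleton] at hf
    rw [hf]
    exact ha)
  obtain ⟨u, hu⟩ := B.exists_basis2 h (insert γ S0) (by
    intro δ hδ
    rcases Finset.mem_insert.1 hδ with rfl | hδ
    · exact ⟨hγ, h0⟩
    · exact hS0 δ hδ)
  have hu0 : GoodBasis B.Γ (S0 : Set ℝ) u :=
    ⟨hu.mem, hu.pos, hu.ind, hu.gen, fun δ hδ => hu.cone δ
      (Finset.mem_coe.2 (Finset.mem_insert_of_mem (Finset.mem_coe.1 hδ)))⟩
  obtain ⟨N, hx, hNy, -, hNR, haN⟩ := hG u hu0
  have haN' : a ∈ N.R := haN a (Finset.mem_singleton_self a)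
  obtain ⟨n, hn, hnγ⟩ := hu.cone γ (Finset.mem_coe.2 (Finset.mem_insert_self γ S0))
  -- `χ γ` is the product of the powers of the `x i`
  have hprod : ∀ s : Finset (Fin r), (∑ i ∈ s, (n i : ℝ) * u i) ∈ B.Γ ∧
      B.χ (∑ i ∈ s, (n i : ℝ) * u i) = ∏ i ∈ s, N.x i ^ n i := by
    intro s
    induction s using Finset.induction_on with
    | empty => exact ⟨by simp [B.Γ.zero_mem], by simp [B.χ_zero]⟩
    | insert i s hi ih =>
      have h1 : (n i : ℝ) * u i ∈ B.Γ := by
        rw [← nsmul_eq_mul]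
        exact B.Γ.nsmul_mem (hu.mem i) _
      rw [Finset.sum_insert hi, Finset.prod_insert hi]
      refine ⟨B.Γ.add_mem h1 ih.1, ?_⟩
      rw [B.χ_add _ h1 _ ih.1, ih.2, B.χ_nsmul (hu.mem i), hx i]
  have h1 := (hprod Finset.univ).2
  rw [← hnγ] at h1
  let i0 : Fin r := ⟨0, h.rpos⟩
  have h2 : ∏ i, N.x i ^ n i = N.x i0 * (N.x i0 ^ (n i0 - 1) *
      ∏ i ∈ Finset.univ.erase i0, N.x i ^ n i) := by
    rw [← Finset.mul_prod_erase Finset.univ _ (Finset.mem_univ i0), ← mul_assoc, ← pow_succ',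
      Nat.sub_add_cancel (hn i0)]
  have h3 : N.x i0 ^ (n i0 - 1) * ∏ i ∈ Finset.univ.erase i0, N.x i ^ n i ∈ N.R :=
    N.R.mul_mem (N.R.pow_mem (N.x_mem i0) _)
      (N.R.prod_mem fun i _ => N.R.pow_mem (N.x_mem i) _)
  apply N.reg2 h D (Pi.single i0 ((N.x i0 ^ (n i0 - 1) *
      ∏ i ∈ Finset.univ.erase i0, N.x i ^ n i) * a))
  · intro i
    by_cases hi : i = i0
    · subst hi
      rw [Pi.single_eq_same]
      exact N.R.mul_mem h3 haN'
    · rw [Pi.single_eq_of_ne hi]
      exact N.R.zero_mem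
  · rw [Finset.sum_eq_single i0]
    · rw [Pi.single_eq_same, hNy, hy, h1, h2]
      ring
    · intro i _ hi
      rw [Pi.single_eq_of_ne hi, mul_zero]
    · intro hi
      exact absurd (Finset.mem_univ i0) hi


end Pool.Agent.LU1
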