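import Pool.Agent.Lib.LU2_base.Reg
import Pool.Agent.Lib.LU1_h15.Rep

/-! # LU2 base: content and order -/

set_option autoImplicit false

namespace Pool.Agent.LU1

open Pool.Agent.H15JM (RVal)
open Polynomial

universe u

variable {k Ω : Type u} [Field k] [Field Ω] [Algebra k Ω] {v : RVal Ω} {r : ℕ}

open Pool.Agent.LU1.RepAux

/-- No power of `y` is in the ideal `I`. -/
theorem not_hi2 (h : Ctx2 k v r) (B : BF k v) (D : ℕ) {u : Ω} (hu : B.Un u) :
    ¬ Hi B 0 (u * B.y ^ D) := by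
  rintro ⟨γ, hγ, h1, a, ha, h2⟩
  refine B.reg2 h D hγ h1 (B.R.mul_mem hu.inv.1 ha) ?_
  have h3 : B.y ^ D = u⁻¹ * (u * B.y ^ D) := by
    rw [← mul_assoc, inv_mul_cancel₀ hu.2.1, one_mul]
  rw [h3, h2]; ring


theorem BF.Rep.ne_zero2 (h : Ctx2 k v r) {B : BF k v} {f : Ω} {κ : ℝ} {D : ℕ}
    (h1 : B.Rep f κ D) : f ≠ 0 := by
  rintro rfl
  obtain ⟨hκ, u, hu, δ, hδ, h0, a, ha, h2⟩ := h1
  have h3 : u * B.y ^ D + B.χ δ * a = 0 := by
    rcases mul_eq_zero.1 h2.symm with h4 | h4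
    · exact absurd h4 (B.χ_ne κ hκ)
    · exact h4
  refine not_hi2 h B D hu ⟨δ, hδ, h0, -a, B.R.neg_mem ha, ?_⟩
  rw [eq_neg_of_add_eq_zero_left h3]; ring


/-- Elements of `χ(κ) R` have content at least `κ`. -/
theorem BF.Rep.ge_of_mem2 (h : Ctx2 k v r) {B : BF k v} {f : Ω} {κ κ' : ℝ} {D : ℕ}
    (h1 : B.Rep f κ D) (hκ' : κ' ∈ B.Γ) {a : Ω} (ha : a ∈ B.R) (hf : f = B.χ κ' * a) :
    κ' ≤ κ := by
  by_contra hcon
  have hlt : κ < κ' := not_le.1 hcon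
  have hκ := h1.1
  obtain ⟨u, hu, h2⟩ := (rep_iff hκ).1 h1
  have h3 : Hi B κ (B.χ κ * (u * B.y ^ D)) := by
    have h4 : B.χ κ * (u * B.y ^ D) = B.χ κ' * a + -(f - B.χ κ * (u * B.y ^ D)) := by
      rw [← hf]; ring
    rw [h4]
    exact Hi.add ⟨κ', hκ', hlt, a, ha, rfl⟩ h2.neg
  have h5 := h3.χ_mul (B.Γ.neg_mem hκ)
  rw [neg_add_cancel, ← mul_assoc, ← B.χ_add _ (B.Γ.neg_mem hκ) _ hκ, neg_add_cancel,
    B.χ_zero, one_mul] at h5
  exact not_hi2 h B D hu h5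


theorem BF.Rep.unique2 (h : Ctx2 k v r) {B : BF k v} {f : Ω} {κ κ' : ℝ} {D D' : ℕ}
    (h1 : B.Rep f κ D) (h2 : B.Rep f κ' D') : κ = κ' ∧ D = D' := by
  have hy : ∀ n : ℕ, B.y ^ n ∈ B.R := fun n => B.R.pow_mem B.y_mem n
  have hle : ∀ {κ κ' : ℝ} {D D' : ℕ}, B.Rep f κ D → B.Rep f κ' D' → κ' ≤ κ := by
    intro κ κ' D D' h1 h2
    obtain ⟨hκ', u, hu, δ, hδ, h0, a, ha, h3⟩ := h2
    exact h1.ge_of_mem2 h hκ' (B.R.add_mem (B.R.mul_mem hu.1 (hy D'))
      (B.R.mul_mem (B.χ_mem δ hδ h0.le) ha)) h3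
  have hκ : κ = κ' := le_antisymm (hle h2 h1) (hle h1 h2)
  subst hκ
  refine ⟨rfl, ?_⟩
  have key : ∀ {D D' : ℕ}, B.Rep f κ D → B.Rep f κ D' → ¬ D < D' := by
    intro D D' h1 h2 hlt
    have h3 := h1.1
    obtain ⟨u, hu, h4⟩ := (rep_iff h3).1 h2
    have h5 : B.Rep (-(B.χ κ * (u * B.y ^ D'))) κ D' := by
      refine (rep_iff h3).2 ⟨-u, ?_, ?_⟩
      · refine ⟨B.R.neg_mem hu.1, neg_ne_zero.2 hu.2.1, ?_⟩
        rw [v.map_neg _ hu.2.1, hu.2.2]
      · have h6 : -(B.χ κ * (u * B.y ^ D')) - B.χ κ * (-u * B.y ^ D') = 0 := by ring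
        rw [h6]
        exact Hi.zero B h3
    have h6 := h1.add h5 (Or.inr ⟨rfl, hlt⟩)
    rw [← sub_eq_add_neg] at h6
    obtain ⟨γ, hγ, h7, a, ha, h8⟩ := h4
    exact absurd (h6.ge_of_mem2 h hγ ha h8) (not_le.2 h7)
  rcases lt_trichotomy D D' with h3 | h3 | h3
  · exact absurd h3 (key h1 h2)
  · exact h3
  · exact absurd h3 (key h2 h1)


theorem BF.Rep.val_pos2 (h : Ctx2 k v r) {B : BF k v} {f : Ω} {κ : ℝ} {D : ℕ} (h1 : B.Rep f κ D)
    (hD : 1 ≤ D) : κ < v f := by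
  have hne := h1.ne_zero2 h
  obtain ⟨hκ, u, hu, δ, hδ, hδ0, a, ha, rfl⟩ := h1
  have h2 := right_ne_zero_of_mul hne
  have h3 : VPos v (u * B.y ^ D + B.χ δ * a) := by
    refine VPos.add ?_ ((B.vpos_χ hδ hδ0).mul (B.nonneg a ha))
    apply VPos.mul' (B.nonneg _ hu.1)
    intro _
    rw [v.map_pow B.y_ne]
    exact mul_pos (by exact_mod_cast hD) B.y_pos
  rw [v.map_mul (B.χ_ne κ hκ) h2, B.χ_val κ hκ]
  linarith [h3 h2]


/-- The `(content, order)` of a polynomial is its lexicographic minimum. -/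
theorem BF.rep_ev2 (h : Ctx2 k v r) (B : BF k v) {P : (Lau k)[X]} (hP : SuppIn B.Γ P) {κ : ℝ}
    {D : ℕ} (hLD : IsLD All P 0 κ D) : B.Rep (B.ev P) κ D := by
  classical
  obtain ⟨h1, h2, h3, -⟩ := hLD
  rw [mul_zero, sub_zero] at h3
  have hterm : ∀ γ l, co P γ l ≠ 0 →
      B.Rep (algebraMap k Ω (co P γ l) * B.χ γ * B.y ^ l) γ l := by
    intro γ l hc
    have hγ := hP γ l hc
    have h4 := ((BF.Mono.un (BF.Un.const2 h hc (B := B))).mul (BF.Mono.χ hγ)).rep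
    have hne : algebraMap k Ω (co P γ l) ≠ 0 := by simpa using hc
    rw [v.map_mul hne (B.χ_ne γ hγ), h.triv _ hc, zero_add, B.χ_val γ hγ] at h4
    have h5 := h4.mul (B.rep_y.pow l)
    simpa using h5
  rw [B.ev_eq, Finset.sum_sigma']
  have hmem : (⟨D, κ⟩ : (_ : ℕ) × ℝ) ∈
      P.support.sigma fun l => (P.coeff l).coeff.support := by
    rw [Finset.mem_sigma]
    constructor
    · rw [Polynomial.mem_support_iff]
      intro h5
      apply h3
      show (P.coeff D).coeff κ = 0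
      rw [h5]; rfl
    · exact Finsupp.mem_support_iff.2 h3
  rw [← Finset.add_sum_erase _ _ hmem]
  have key : ∀ s : Finset ((_ : ℕ) × ℝ), (∀ q ∈ s, co P q.2 q.1 ≠ 0 ∧ q ≠ ⟨D, κ⟩) →
      B.Rep (algebraMap k Ω (co P κ D) * B.χ κ * B.y ^ D +
        ∑ q ∈ s, algebraMap k Ω (co P q.2 q.1) * B.χ q.2 * B.y ^ q.1) κ D := by
    intro s
    induction s using Finset.induction_on with
    | empty =>
      intro _
      rw [Finset.sum_empty, add_zero]
      exact hterm κ D h3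
    | insert q s hq ih =>
      intro hs
      rw [Finset.sum_insert hq, add_left_comm, add_comm]
      refine (ih fun q' hq' => hs q' (Finset.mem_insert_of_mem hq')).add
        (hterm q.2 q.1 (hs q (Finset.mem_insert_self q s)).1) ?_
      obtain ⟨h5, h6⟩ := hs q (Finset.mem_insert_self q s)
      have h7 := h1 q.2 q.1 h5 trivial
      rw [mul_zero, add_zero] at h7
      rcases h7.lt_or_eq with h8 | h8
      · exact Or.inl h8
      · refine Or.inr ⟨h8, ?_⟩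
        by_contra hcon
        rcases lt_or_eq_of_le (not_lt.1 hcon) with h9 | h9
        · have h10 := h2 q.2 q.1 h5 trivial h9
          rw [mul_zero, add_zero] at h10
          exact absurd h8 h10.ne
        · apply h6
          obtain ⟨l, γ⟩ := q
          simp only at h8 h9
          subst h8; subst h9; rfl
  apply key
  intro q hq
  rw [Finset.mem_erase, Finset.mem_sigma] at hq
  exact ⟨Finsupp.mem_support_iff.1 hq.2.2, hq.1⟩


theorem BF.ev_ne_zero2 (h : Ctx2 k v r) (B : BF k v) {P : (Lau k)[X]} (hP : SuppIn B.Γ P)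
    (h0 : P ≠ 0) : B.ev P ≠ 0 := by
  obtain ⟨κ, D, hLD⟩ := exists_IsLD All P 0 (by
    obtain ⟨l, hl⟩ := Polynomial.support_nonempty.2 h0
    rw [Polynomial.mem_support_iff] at hl
    have h1 : (P.coeff l).coeff ≠ 0 := by
      intro h2
      apply hl
      ext γ
      rw [h2]; rfl
    obtain ⟨γ, hγ⟩ := Finsupp.ne_iff.1 h1
    exact ⟨γ, l, hγ, trivial⟩)
  exact (B.rep_ev2 h hP hLD).ne_zero2 h


/-- If `ν(y') = (0, 1)` then `(Γ, χ, y', R)` is a frame. -/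
theorem BF.change_y2 (h : Ctx2 k v r) (B : BF k v) {y' : Ω} (hy : B.Rep y' 0 1) :
    ∃ B' : BF k v, B'.Γ = B.Γ ∧ B'.χ = B.χ ∧ B'.y = y' ∧ B'.R = B.R := by
  obtain ⟨-, u, hu, δ, hδ, hδ0, a, ha, h1⟩ := id hy
  rw [B.χ_zero, one_mul, pow_one] at h1
  refine ⟨{ B with
    y := y'
    y_ne := hy.ne_zero2 h
    y_pos := hy.val_pos2 h le_rfl
    y_mem := hy.mem le_rfl
    gen := ?_ }, rfl, rfl, rfl, rfl⟩
  intro f hf hv
  obtain ⟨γ, hγ, h0, a', ha', b, hb, rfl⟩ := B.gen f hf hv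
  obtain ⟨c, hc, h2⟩ := B.ideal_add hγ hδ ha' (b := -(a * (u⁻¹ * b)))
    (B.R.neg_mem (B.R.mul_mem ha (B.R.mul_mem hu.inv.1 hb)))
  refine ⟨min γ δ, ?_, lt_min h0 hδ0, c, hc, u⁻¹ * b, B.R.mul_mem hu.inv.1 hb, ?_⟩
  · rcases min_choice γ δ with h | h <;> rw [h] <;> assumption
  · rw [← h2, h1]
    have h3 : u * u⁻¹ = 1 := mul_inv_cancel₀ hu.2.1
    have h4 : (u * B.y + B.χ δ * a) * (u⁻¹ * b) =
        (u * u⁻¹) * (B.y * b) + B.χ δ * (a * (u⁻¹ * b)) := by ring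
    rw [h4, h3]; ring


theorem BF.rep_exists2 (h : Ctx2 k v r) (B : BF k v) {f : Ω} (hf : f ∈ B.R) (h0 : f ≠ 0) :
    ∃ κ D, 0 ≤ κ ∧ B.Rep f κ D := by
  obtain ⟨S0, G, hS0, hG, -, hN⟩ := B.exists_NF2 h {f} (by simpa using hf)
  obtain ⟨w, hw⟩ := B.exists_basis2 h S0 hS0
  obtain ⟨N, hNx, hNy, -, hNR, hfN⟩ := hN w hw
  have hfN' : f ∈ N.R := hfN f (Finset.mem_singleton_self f)
  have := N.isNoetherian
  have := N.isLocalRing
  -- units and the maximal ideal of `N.R`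
  obtain ⟨F, hF⟩ := N.fgen
  have hinv : ∀ z ∈ N.R, z ≠ 0 → v z = 0 → z⁻¹ ∈ N.R := by
    intro z hz hz0 hvz
    rw [hF] at hz ⊢
    exact locv_inv hz hz0 hvz
  let x : Fin r → N.R := fun i => ⟨N.x i, N.x_mem i⟩
  let y : N.R := ⟨N.y, N.y_mem⟩
  have hvp : ∀ z : N.R, z ∈ IsLocalRing.maximalIdeal N.R ↔ VPos v (z : Ω) := by
    intro z
    rw [IsLocalRing.mem_maximalIdeal, mem_nonunits_iff]
    constructor
    · intro hz hz0
      rcases (N.nonneg z z.2 hz0).lt_or_eq with h1 | h1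
      · exact h1
      · exfalso
        apply hz
        have h2 := hinv z z.2 hz0 h1.symm
        refine IsUnit.of_mul_eq_one ⟨(z : Ω)⁻¹, h2⟩ ?_
        apply Subtype.ext
        exact mul_inv_cancel₀ hz0
    · intro hz hu
      obtain ⟨t, ht⟩ := hu.exists_right_inv
      have ht' : (z : Ω) * (t : Ω) = 1 := congrArg Subtype.val ht
      have hz0 : (z : Ω) ≠ 0 := left_ne_zero_of_mul (by rw [ht']; exact one_ne_zero)
      have ht0 : (t : Ω) ≠ 0 := right_ne_zero_of_mul (by rw [ht']; exact one_ne_zero)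
      have h1 := v.map_mul hz0 ht0
      rw [ht', v.map_one] at h1
      have h2 := hz hz0
      have h3 := N.nonneg t t.2 ht0
      linarith
  have hm : IsLocalRing.maximalIdeal N.R = Ideal.span (Set.range x) ⊔ Ideal.span {y} := by
    apply le_antisymm
    · intro z hz
      obtain ⟨a, ha, b, hb, h1⟩ := N.gen z z.2 ((hvp z).1 hz)
      have h2 : z = ∑ i, x i * ⟨a i, ha i⟩ + y * ⟨b, hb⟩ := by
        apply Subtype.ext
        rw [h1]
        push_cast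
        rfl
      rw [h2]
      refine Ideal.add_mem _ (Ideal.sum_mem _ fun i _ => ?_) ?_
      · exact Ideal.mul_mem_right _ _ (Ideal.mem_sup_left (Ideal.subset_span ⟨i, rfl⟩))
      · exact Ideal.mul_mem_right _ _ (Ideal.mem_sup_right (Ideal.mem_span_singleton_self y))
    · rw [sup_le_iff, Ideal.span_le, Ideal.span_le]
      constructor
      · rintro _ ⟨i, rfl⟩
        exact (hvp _).2 fun _ => N.x_pos i
      · rintro _ rfl
        exact (hvp _).2 fun _ => N.y_pos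
  have hf0 : (⟨f, hfN'⟩ : N.R) ≠ 0 := fun h1 => h0 (congrArg Subtype.val h1)
  obtain ⟨a, D, g, hg, hA⟩ := leading x y hm w hw.pos hw.ind ⟨f, hfN'⟩ hf0
  set κ := ∑ i, (a i : ℝ) * w i with hκdef
  have hκ : κ ∈ B.Γ := (χ_sum B w hw.mem a Finset.univ).1
  have hχ : ∀ b : Fin r → ℕ, ((∏ i, x i ^ b i : N.R) : Ω) = B.χ (∑ i, (b i : ℝ) * w i) := by
    intro b
    rw [(χ_sum B w hw.mem b Finset.univ).2]
    push_cast
    exact Finset.prod_congr rfl fun i _ => by rw [show ((x i : N.R) : Ω) = N.x i from rfl, hNx i]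
  refine ⟨κ, D, Finset.sum_nonneg fun i _ => mul_nonneg (Nat.cast_nonneg _) (hw.pos i).le, ?_⟩
  have hgu : B.Un (g : Ω) := by
    have h1 : ¬ VPos v (g : Ω) := by
      rw [← hvp, IsLocalRing.mem_maximalIdeal, mem_nonunits_iff, not_not]
      exact hg
    unfold VPos at h1
    push Not at h1
    obtain ⟨h2, h3⟩ := h1
    exact ⟨hNR g.2, h2, le_antisymm h3 (N.nonneg g g.2 h2)⟩
  refine (rep_iff hκ).2 ⟨g, hgu, ?_⟩
  have hall : ∀ z ∈ Agt x w κ, Hi B κ (z : Ω) := by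
    intro z hz
    induction hz using Submodule.span_induction with
    | mem z hz =>
      obtain ⟨b, hb, rfl⟩ := hz
      rw [hχ b]
      exact ⟨_, (χ_sum B w hw.mem b Finset.univ).1, hb, 1, B.R.one_mem, by rw [mul_one]⟩
    | zero => exact Hi.zero B hκ
    | add z t _ _ hz ht =>
      rw [AddMemClass.coe_add]; exact hz.add ht
    | smul c z _ hz =>
      rw [smul_eq_mul, MulMemClass.coe_mul]; exact hz.mul (hNR c.2)
  have h1 := hall _ hA
  have h2 : ((⟨f, hfN'⟩ - (∏ i, x i ^ a i) * (g * y ^ D) : N.R) : Ω) =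
      f - B.χ κ * ((g : Ω) * B.y ^ D) := by
    rw [AddSubgroupClass.coe_sub, MulMemClass.coe_mul, hχ a, MulMemClass.coe_mul,
      SubmonoidClass.coe_pow, ← hNy]
  rwa [h2] at h1


end Pool.Agent.LU1
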